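import Pool.Agent.W555.GL.Stm

/-! # GL-REC: transfinite recursion -/

set_option autoImplicit false

namespace Pool.Agent.W496.GL

open Cardinal Pool.Agent.W555.GL

theorem rec : StRec := by
  intro X ι κ hκ hι P H
  classical
  obtain ⟨r, wo, hr⟩ := Cardinal.exists_ord_eq ι
  have hseg : ∀ i : ι, #{j : ι // r j i} < #ι := by
    intro i
    have h := Cardinal.card_typein_lt i hr
    rwa [Ordinal.card_typein] at h
  -- the cardinality of the union of finite sets over an initial segment
  have hbd : ∀ (i : ι) (g : ∀ j : ι, r j i → {s : Set X // s.Finite}),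
      #(⋃ j : {j : ι // r j i}, (g j.1 j.2).1 : Set X) < κ := by
    intro i g
    rcases lt_or_ge (#{j : ι // r j i}) ℵ₀ with hfin | hinf
    · have hF : Finite {j : ι // r j i} := Cardinal.lt_aleph0_iff_finite.1 hfin
      have : (⋃ j : {j : ι // r j i}, (g j.1 j.2).1 : Set X).Finite :=
        Set.finite_iUnion (fun j => (g j.1 j.2).2)
      exact lt_of_lt_of_le (Cardinal.lt_aleph0_iff_set_finite.2 this) hκ
    · calc #(⋃ j : {j : ι // r j i}, (g j.1 j.2).1 : Set X)
          ≤ Cardinal.sum (fun j : {j : ι // r j i} => #((g j.1 j.2).1 : Set X)) :=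
            Cardinal.mk_iUnion_le_sum_mk
        _ ≤ Cardinal.sum (fun _ : {j : ι // r j i} => ℵ₀) := by
            apply Cardinal.sum_le_sum
            intro j
            exact le_of_lt (Cardinal.lt_aleph0_iff_set_finite.2 (g j.1 j.2).2)
        _ = #{j : ι // r j i} * ℵ₀ := by simp
        _ = #{j : ι // r j i} := Cardinal.mul_aleph0_eq hinf
        _ < #ι := hseg i
        _ ≤ κ := hι
  choose ch hch using H
  let f : ∀ i : ι, (∀ j : ι, r j i → {s : Set X // s.Finite}) → {s : Set X // s.Finite} :=
    fun i g => ⟨ch i (⋃ j : {j : ι // r j i}, (g j.1 j.2).1) (hbd i g), (hch i _ (hbd i g)).2.1⟩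
  let c : ι → {s : Set X // s.Finite} := wo.wf.fix f
  have hc : ∀ i, c i = f i (fun j _ => c j) := fun i => wo.wf.fix_eq f i
  have hP : ∀ i, P i (c i).1 := by
    intro i
    rw [hc i]
    exact (hch i _ (hbd i (fun j _ => c j))).1
  have hD : ∀ i j, r j i → Disjoint (c i).1 (c j).1 := by
    intro i j hji
    have h1 : Disjoint (f i (fun j _ => c j)).1 (⋃ j : {j : ι // r j i}, (c j.1).1) :=
      (hch i _ (hbd i (fun j _ => c j))).2.2
    rw [← hc i] at h1
    exact h1.mono_right (Set.subset_iUnion (fun j : {j : ι // r j i} => (c j.1).1) ⟨j, hji⟩)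
  refine ⟨fun i => (c i).1, hP, ?_⟩
  intro i j hij
  rcases trichotomous_of r i j with h | h | h
  · exact (hD j i h).symm
  · exact absurd h hij
  · exact hD i j h

end Pool.Agent.W496.GL
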